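import Pool.Agent.MWP.Stmts

/-! # Row HTC of squad MWP -/

set_option autoImplicit false

namespace Pool.Agent.MWP.H22

open Pool.Agent.Helper14_MV Pool.Agent.Helper2_MV Pool.Agent.MWF

theorem pair_dbl {x y : ℕ} {l : List ℕ} (hxy : x ≠ y) :
    [x, y].Sublist (dbl l) ↔ [x, y].Sublist l := by
  unfold dbl
  rw [pair_flatMap]
  constructor
  · rintro (⟨c, _, h⟩ | ⟨c, d, h, h1, h2⟩)
    · have h3 := pair_mem h
      have h4 : x = c := by simpa using h3.1
      have h5 : y = c := by simpa using h3.2
      exact absurd (h4.trans h5.symm) hxy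
    · have h4 : x = c := by simpa using h1
      have h5 : y = d := by simpa using h2
      rw [h4, h5]
      exact h
  · intro h
    exact Or.inr ⟨x, y, h, by simp, by simp⟩

theorem pair_map7 {x y : ℕ} {l : List ℕ} :
    [x + 7, y + 7].Sublist (l.map fun c => c + 7) ↔ [x, y].Sublist l := by
  constructor
  · intro h
    obtain ⟨l', h1, h2⟩ := List.sublist_map_iff.1 h
    have h3 : l' = [x, y] := by
      have hinj : Function.Injective fun c : ℕ => c + 7 := fun a b h => by
        simpa using h
      exact (List.map_injective_iff.2 hinj) (h2.symm.trans (by simp))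
    rwa [h3] at h1
  · intro h
    have h1 := h.map fun c => c + 7
    simpa using h1

theorem mem_V7 {v : List ℕ} {x : ℕ} : x ∈ V7 v ↔ ∃ c ∈ v, c + 7 = x := by
  unfold V7 dbl
  simp only [List.mem_flatMap, List.mem_map, List.mem_cons, List.not_mem_nil, or_false, or_self]
  constructor
  · rintro ⟨_, ⟨c, hc, rfl⟩, rfl⟩
    exact ⟨c, hc, rfl⟩
  · rintro ⟨c, hc, rfl⟩
    exact ⟨c + 7, ⟨c, hc, rfl⟩, rfl⟩

theorem V7_ge {v : List ℕ} {x : ℕ} (h : x ∈ V7 v) : 7 ≤ x := by
  obtain ⟨c, _, rfl⟩ := mem_V7.1 h
  omega

theorem pair_V7 {v : List ℕ} {x y : ℕ} (hxy : x ≠ y) :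
    [x + 7, y + 7].Sublist (V7 v) ↔ [x, y].Sublist v := by
  unfold V7
  rw [pair_dbl (by omega), pair_map7]

theorem len_le {v : List ℕ} {h : ℕ} (hv : Hgt v h) {w T : List ℕ} (hT : ∀ x ∈ T, x ∈ V7 v)
    (hw : ∀ x y, [x, y].Sublist (V7 v) → [x, y].Sublist w)
    (hp : T.Pairwise (fun x y => x ≠ y ∧ ¬ [y, x].Sublist w)) : T.length ≤ h := by
  have h1 : Chn v (T.map fun x => x - 7) := by
    refine ⟨fun x hx => ?_, ?_⟩
    · obtain ⟨y, hy, rfl⟩ := List.mem_map.1 hx
      obtain ⟨c, hc, rfl⟩ := mem_V7.1 (hT y hy)
      simpa using hc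
    · rw [List.pairwise_map]
      refine hp.imp_of_mem fun {x y} hx hy hxy => ?_
      obtain ⟨c, _, rfl⟩ := mem_V7.1 (hT x hx)
      obtain ⟨d, _, rfl⟩ := mem_V7.1 (hT y hy)
      rw [Nat.add_sub_cancel, Nat.add_sub_cancel]
      have hcd : c ≠ d := fun h0 => hxy.1 (by rw [h0])
      exact ⟨hcd, fun h2 => hxy.2 (hw _ _ ((pair_V7 hcd.symm).2 h2))⟩
  have h2 := hv.2 _ h1
  rwa [List.length_map] at h2

theorem len_erase (T : List ℕ) (a : ℕ) (hT : T.Nodup) :
    T.length ≤ (T.filter fun x => decide (x ≠ a)).length + 1 := by
  have h1 := List.length_eq_countP_add_countP (fun x => decide (x ≠ a)) (l := T)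
  have h2 : T.count a ≤ 1 := List.nodup_iff_count_le_one.1 hT a
  rw [List.countP_eq_length_filter] at h1
  have h3 : List.countP (fun x => decide ¬(decide (x ≠ a)) = true) T = T.count a := by
    unfold List.count
    refine List.countP_congr fun x _ => ?_
    by_cases hx : x = a <;> simp [hx]
  rw [h3] at h1
  omega

theorem nodup_of {T : List ℕ} {P : ℕ → ℕ → Prop} (h : T.Pairwise (fun x y => x ≠ y ∧ P x y)) :
    T.Nodup := h.imp fun h => h.1

theorem single_len {T : List ℕ} {a : ℕ} {P : ℕ → ℕ → Prop} (h1 : ∀ x ∈ T, x = a)
    (h : T.Pairwise (fun x y => x ≠ y ∧ P x y)) : T.length ≤ 1 := by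
  have h2 := List.nodup_iff_count_le_one.1 (nodup_of h) a
  have h3 := List.eq_replicate_of_mem h1
  rw [h3, List.count_replicate_self] at h2
  exact h2

/-- patterns of `c0 v` with two letters `≥ 7` -/
theorem pair_c0 {v : List ℕ} {x y : ℕ} (hx : 7 ≤ x) (hy : 7 ≤ y) :
    [x, y].Sublist (c0 v) ↔ [x, y].Sublist (V7 v) := by
  unfold c0
  rw [pair_append, pair_append]
  constructor
  · rintro ((h | ⟨h, _⟩ | h) | ⟨_, h⟩ | h)
    · have := (pair_mem h).1
      simp at this
      omega
    · simp at h
      omega
    · exact h
    · simp at h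
      omega
    · have := (pair_mem h).1
      simp at this
      omega
  · intro h
    exact Or.inl (Or.inr (Or.inr h))

theorem htc : HtcStmt := by
  intro v h hv
  refine ⟨fun T hT => ?_, fun T hT => ?_, fun T hT => ?_, fun T hT => ?_, fun T hT => ?_, ?_⟩
  · exact len_le hv hT.1 (fun x y h => h) hT.2
  · have h1 := len_erase T 6 (nodup_of hT.2)
    have h2 : (T.filter fun x => decide (x ≠ 6)).length ≤ h := by
      refine len_le hv (w := V7 v ++ [6, 6]) (fun x hx => ?_) (fun x y h => ?_)
        (hT.2.sublist List.filter_sublist)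
      · obtain ⟨h3, h4⟩ := List.mem_filter.1 hx
        have h5 : x ≠ 6 := by simpa using h4
        rcases List.mem_append.1 (hT.1 x h3) with h6 | h6
        · exact h6
        · simp at h6
          exact absurd h6 h5
      · exact h.trans (List.sublist_append_left _ _)
    omega
  · have h1 := len_erase T 5 (nodup_of hT.2)
    have h2 : (T.filter fun x => decide (x ≠ 5)).length ≤ h := by
      refine len_le hv (w := [5, 5] ++ V7 v) (fun x hx => ?_) (fun x y h => ?_)
        (hT.2.sublist List.filter_sublist)
      · obtain ⟨h3, h4⟩ := List.mem_filter.1 hx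
        have h5 : x ≠ 5 := by simpa using h4
        rcases List.mem_append.1 (hT.1 x h3) with h6 | h6
        · simp at h6
          exact absurd h6 h5
        · exact h6
      · exact h.trans (List.sublist_append_right _ _)
    omega
  · exact single_len (a := 5) (fun x hx => by simpa using hT.1 x hx) hT.2
  · exact single_len (a := 6) (fun x hx => by simpa using hT.1 x hx) hT.2
  · obtain ⟨T0, hT0, hlen⟩ := hv.1
    set T : List ℕ := T0.map fun c => c + 7 with hT
    have hmem : ∀ x ∈ T, x ∈ V7 v := by
      intro x hx
      obtain ⟨c, hc, rfl⟩ := List.mem_map.1 hx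
      exact mem_V7.2 ⟨c, hT0.1 c hc, rfl⟩
    have hge : ∀ x ∈ T, 7 ≤ x := fun x hx => V7_ge (hmem x hx)
    have hpw : T.Pairwise (fun x y => x ≠ y ∧ ¬ [y, x].Sublist (c0 v)) := by
      rw [hT, List.pairwise_map]
      refine hT0.2.imp fun {x y} hxy => ?_
      refine ⟨by have := hxy.1; omega, fun h1 => hxy.2 ?_⟩
      rw [pair_c0 (by omega) (by omega)] at h1
      exact (pair_V7 hxy.1.symm).1 h1
    have hV : ∀ a, a ≤ 6 → a ∉ V7 v := fun a ha h1 => by
      have := V7_ge h1
      omega
    refine ⟨T, by rw [hT, List.length_map, hlen], hmem, ?_, ?_⟩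
    · rw [List.pairwise_cons, List.pairwise_cons]
      refine ⟨fun x hx => ?_, fun x hx => ?_, hpw⟩
      · rcases List.mem_cons.1 hx with rfl | hx
        · refine ⟨by omega, ?_⟩
          unfold c0
          rw [pair_append, pair_append]
          rintro ((h | ⟨_, h⟩ | h) | ⟨_, h⟩ | h)
          · revert h; decide
          · exact hV 5 (by omega) h
          · exact hV 5 (by omega) (pair_mem h).2
          · simp at h
          · have := (pair_mem h).2
            simp at this
        · have h7 := hge x hx
          refine ⟨by omega, ?_⟩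
          unfold c0
          rw [pair_append, pair_append]
          rintro ((h | ⟨_, h⟩ | h) | ⟨_, h⟩ | h)
          · have := (pair_mem h).1
            simp at this
            omega
          · exact hV 5 (by omega) h
          · exact hV 5 (by omega) (pair_mem h).2
          · simp at h
          · have := (pair_mem h).2
            simp at this
      · have h7 := hge x hx
        refine ⟨by omega, ?_⟩
        unfold c0
        rw [pair_append, pair_append]
        rintro ((h | ⟨_, h⟩ | h) | ⟨_, h⟩ | h)
        · have := (pair_mem h).1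
          simp at this
          omega
        · exact hV 2 (by omega) h
        · exact hV 2 (by omega) (pair_mem h).2
        · simp at h
        · have := (pair_mem h).2
          simp at this
    · rw [List.pairwise_append]
      refine ⟨hpw, ?_, fun x hx y hy => ?_⟩
      · rw [List.pairwise_cons, List.pairwise_cons]
        refine ⟨fun y hy => ?_, fun y hy => absurd hy (by simp), List.Pairwise.nil⟩
        have hy6 : y = 6 := by simpa using hy
        subst hy6
        refine ⟨by omega, ?_⟩
        unfold c0
        rw [pair_append, pair_append]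
        rintro ((h | ⟨h, _⟩ | h) | ⟨h, _⟩ | h)
        · have := (pair_mem h).1
          simp at this
        · simp at h
        · exact hV 6 (by omega) (pair_mem h).1
        · rcases List.mem_append.1 h with h | h
          · simp at h
          · exact hV 6 (by omega) h
        · revert h; decide
      · have h7 := hge x hx
        have hy' : y = 3 ∨ y = 6 := by simpa using hy
        refine ⟨by omega, ?_⟩
        unfold c0
        rw [pair_append, pair_append]
        rintro ((h | ⟨h, _⟩ | h) | ⟨_, h⟩ | h)
        · have := (pair_mem h).2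
          simp at this
          omega
        · simp at h
          omega
        · exact hV y (by omega) (pair_mem h).1
        · simp at h
          omega
        · have := (pair_mem h).2
          simp at this
          omega

end Pool.Agent.MWP.H22
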